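import Pool.Agent.H593R2.HZ.T1a
import Pool.Agent.H593R2.HZ.T1b
import Pool.Agent.H593R2.HZ.T1
import Pool.Agent.H593R2.HZ.T2
import Pool.Agent.H593R2.HZ.T3a
import Pool.Agent.H593R2.HZ.T3b
import Pool.Agent.H593R2.HZ.T3c
import Pool.Agent.H593R2.HZ.T3d
import Pool.Agent.H593R2.HZ.T4
import Pool.Agent.H593R2.HZ.T6
import Pool.Agent.H593R2.HZ.T7
import Pool.Agent.H593R2.HZ.T14
import Pool.Agent.H593R2.HZ.T15
import Pool.Agent.H593R2.HZ.U1
import Pool.Agent.H593R2.HZ.U2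
import Pool.Agent.H593R2.HZ.U3
import Pool.Agent.H593R2.HZ.U4
import Pool.Agent.H593R2.HZ.U5
import Pool.Agent.H593R2.HZ.U6
import Pool.Agent.H593R2.HZ.U7
import Pool.Agent.Results.MP_cd3d06_an.ChebyshevBound

open Polynomial

namespace Pool.Agent.Results.MP_cd3d06_an.ExactSecondDiagonal

open Pool.Agent.H593R2.HZ

/-- The number of zeros of `p + conj q` in the plane. -/
noncomputable def zeroCount (p q : ℂ[X]) : ℕ∞ :=
  {z : ℂ | p.eval z + (starRingEnd ℂ) (q.eval z) = 0}.encard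

/-- The number `N(n, m)`: the supremum of the number of zeros of `p + conj q`, over all
polynomials `p` of degree `n` and `q` of degree `m`. -/
noncomputable def N (n m : ℕ) : ℕ∞ :=
  ⨆ (p : ℂ[X]) (q : ℂ[X]) (_ : p.natDegree = n) (_ : q.natDegree = m), zeroCount p q

/-- from monic `p` to all `p`. -/
lemma bound (n m β : ℕ) (hmn : m < n)
    (H : ∀ p q : ℂ[X], p.Monic → p.natDegree = n → q.natDegree ≤ m →
      {z : ℂ | p.eval z + (starRingEnd ℂ) (q.eval z) = 0}.Finite ∧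
      {z : ℂ | p.eval z + (starRingEnd ℂ) (q.eval z) = 0}.ncard ≤ n ^ 2 - 2 * β)
    (p q : ℂ[X]) (hpn : p.natDegree = n) (hqm : q.natDegree = m) :
    zeroCount p q ≤ ((n ^ 2 - 2 * β : ℕ) : ℕ∞) := by
  have hp0 : p ≠ 0 := by rintro rfl; simp at hpn; omega
  set a := p.leadingCoeff with ha
  have ha0 : a ≠ 0 := Polynomial.leadingCoeff_ne_zero.2 hp0
  have hset : {z : ℂ | p.eval z + (starRingEnd ℂ) (q.eval z) = 0} =
      {z : ℂ | (C a⁻¹ * p).eval z + (starRingEnd ℂ) ((C ((starRingEnd ℂ) a⁻¹) * q).eval z) = 0} := by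
    ext z
    simp only [Set.mem_ofPred_eq, Polynomial.eval_mul, Polynomial.eval_C, map_mul,
      starRingEnd_self_apply]
    rw [← mul_add]
    constructor
    · intro h; rw [h, mul_zero]
    · intro h
      rcases mul_eq_zero.1 h with h | h
      · exact absurd h (inv_ne_zero ha0)
      · exact h
  have hmon : (C a⁻¹ * p).Monic := by
    unfold Polynomial.Monic
    rw [Polynomial.leadingCoeff_mul, Polynomial.leadingCoeff_C, ← ha, inv_mul_cancel₀ ha0]
  have hdeg : (C a⁻¹ * p).natDegree = n := by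
    rw [Polynomial.natDegree_C_mul (inv_ne_zero ha0), hpn]
  have hq : (C ((starRingEnd ℂ) a⁻¹) * q).natDegree ≤ m :=
    (Polynomial.natDegree_C_mul_le _ _).trans hqm.le
  obtain ⟨hf, hc⟩ := H (C a⁻¹ * p) (C ((starRingEnd ℂ) a⁻¹) * q) hmon hdeg hq
  unfold zeroCount
  rw [hset, ← hf.cast_ncard_eq]
  exact_mod_cast hc

/-- the upper bound. -/
theorem upper (n m : ℕ) (hmn : m < n) :
    N n m ≤ ((n ^ 2 - 2 * (n - 1 - (n - 1) / (n - m)) : ℕ) : ℕ∞) := by
  have h1 : T1 := t1 t1a t1b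
  have h2' : T2 := t2 h1
  have h3a : T3a := t3a h1
  have h3b : T3b := t3b h1
  have h3c : T3c := t3c h1
  have h3d : T3d := t3d h3b h3c
  have h4' : T4 := t4 h1 h3a
  have h6' : T6 := t6 h2' h3d h4'
  have h7 : T7 := t7 h6'
  have k1 : U1 := u1 h3c
  have k2 : U2 := u2 k1
  have k3 : U3 := u3 k1 k2
  have k4 : U4 := u4 k1 k3
  have k5 : U5 := u5 k1 k4
  have k6 : U6 := u6 h3c
  have k7 : U7 := u7 h3a h7 (t15 t14)
  have key := k7 n m (n - 1 - (n - 1) / (n - m)) hmn (by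
    intro p q hp hpn hq hcard
    have hfin : (Sol p (cj q) (cj p) q).Finite :=
      Set.finite_of_ncard_pos (by rw [hcard]; have : 0 < n := by omega
                                  positivity)
    have hA : (hfin.toFinset : Set (ℂ × ℂ)) = Sol p (cj q) (cj p) q := hfin.coe_toFinset
    have hAc : hfin.toFinset.card = n ^ 2 := by
      rw [← Set.ncard_coe_finset, hA, hcard]
    obtain ⟨V, hV1, hV2⟩ := k5 n m p q hmn hp hpn hq hfin.toFinset hA hAc
    have h := k6 n m p q hmn hp hpn hq hfin.toFinset hA hAc V hV2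
    omega)
  unfold N
  refine iSup_le fun p => iSup_le fun q => iSup_le fun hp => iSup_le fun hq => ?_
  exact bound n m _ hmn key p q hp hq

/-- **The exact value `N(n, n - 2)`, and a general upper bound.**
(1) For all `m < n`: `N(n, m) ≤ n ^ 2 - 2 (n - 1 - ⌊(n - 1) / (n - m)⌋)`.
(2) For all `n ≥ 3`: `N(n, n - 2) = n ^ 2 - n + 2 - gcd(2, n)`, that is `n ^ 2 - n + 1` for odd
`n` and `n ^ 2 - n` for even `n`, and the value is attained. -/
theorem result :
    (∀ n m : ℕ, m < n → N n m ≤ ((n ^ 2 - 2 * (n - 1 - (n - 1) / (n - m)) : ℕ) : ℕ∞)) ∧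
    (∀ n : ℕ, 3 ≤ n → N n (n - 2) = ((n ^ 2 - n + 2 - Nat.gcd 2 n : ℕ) : ℕ∞)) ∧
    (∀ n : ℕ, 3 ≤ n → ∃ p q : ℂ[X], p.natDegree = n ∧ q.natDegree = n - 2 ∧
      zeroCount p q = ((n ^ 2 - n + 2 - Nat.gcd 2 n : ℕ) : ℕ∞)) := by
  -- the arithmetic of the two bounds for `m = n - 2`
  have hup : ∀ n : ℕ, 3 ≤ n →
      n ^ 2 - 2 * (n - 1 - (n - 1) / (n - (n - 2))) = n ^ 2 - n + 2 - Nat.gcd 2 n := by
    intro n hn
    have h2 : n - (n - 2) = 2 := by omega
    rw [h2]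
    have hsq : n ≤ n ^ 2 := by nlinarith
    rcases Nat.even_or_odd n with ⟨k, hk⟩ | ⟨k, hk⟩
    · have hg : Nat.gcd 2 n = 2 := by
        apply Nat.gcd_eq_left
        exact ⟨k, by omega⟩
      rw [hg]
      omega
    · have hg : Nat.gcd 2 n = 1 := by
        have : Nat.Coprime 2 n := by
          rw [Nat.coprime_two_left]
          exact ⟨k, hk⟩
        exact this
      rw [hg]
      omega
  have hlow : ∀ n : ℕ, 3 ≤ n →
      (n - 2) * n + 2 * n - (n - 2) - Nat.gcd (n - 2) n = n ^ 2 - n + 2 - Nat.gcd 2 n := by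
    intro n hn
    obtain ⟨k, rfl⟩ : ∃ k, n = k + 2 := ⟨n - 2, by omega⟩
    have hg : Nat.gcd (k + 2 - 2) (k + 2) = Nat.gcd 2 (k + 2) := by
      rw [Nat.add_sub_cancel, Nat.gcd_self_add_right, Nat.gcd_add_self_right, Nat.gcd_comm]
    rw [hg]
    have e1 : (k + 2 - 2) * (k + 2) = k * k + 2 * k := by
      rw [Nat.add_sub_cancel]; ring
    have e2 : (k + 2) ^ 2 = k * k + 4 * k + 4 := by ring
    rw [e1, e2]
    omega
  have hle : ∀ (n : ℕ) (p q : ℂ[X]), 3 ≤ n → p.natDegree = n → q.natDegree = n - 2 →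
      zeroCount p q ≤ ((n ^ 2 - n + 2 - Nat.gcd 2 n : ℕ) : ℕ∞) := by
    intro n p q hn hp hq
    have h := upper n (n - 2) (by omega)
    rw [hup n hn] at h
    refine le_trans ?_ h
    unfold N
    exact le_iSup_of_le p (le_iSup_of_le q (le_iSup_of_le hp (le_iSup_of_le hq le_rfl)))
  have hatt : ∀ n : ℕ, 3 ≤ n → ∃ p q : ℂ[X], p.natDegree = n ∧ q.natDegree = n - 2 ∧
      zeroCount p q = ((n ^ 2 - n + 2 - Nat.gcd 2 n : ℕ) : ℕ∞) := by
    intro n hn
    obtain ⟨p, q, hp, hq, h⟩ := ChebyshevBound.lower_bound n (n - 2) (by omega) (by omega)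
    rw [hlow n hn] at h
    exact ⟨p, q, hp, hq, le_antisymm (hle n p q hn hp hq) h⟩
  refine ⟨upper, ?_, hatt⟩
  intro n hn
  apply le_antisymm
  · have h := upper n (n - 2) (by omega)
    rw [hup n hn] at h
    exact h
  · obtain ⟨p, q, hp, hq, h⟩ := hatt n hn
    rw [← h]
    unfold N
    exact le_iSup_of_le p (le_iSup_of_le q (le_iSup_of_le hp (le_iSup_of_le hq le_rfl)))

end Pool.Agent.Results.MP_cd3d06_an.ExactSecondDiagonal
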