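import Pool.Agent.H593R2.HZ.T1a
import Pool.Agent.H593R2.HZ.T1b
import Pool.Agent.H593R2.HZ.T1
import Pool.Agent.H593R2.HZ.T2
import Pool.Agent.H593R2.HZ.T3a
import Pool.Agent.H593R2.HZ.T3b
import Pool.Agent.H593R2.HZ.T3c
import Pool.Agent.H593R2.HZ.T3d
import Pool.Agent.H593R2.HZ.T4
import Pool.Agent.H593R2.HZ.T6
import Pool.Agent.H593R2.HZ.T7
import Pool.Agent.H593R2.HZ.T14
import Pool.Agent.H593R2.HZ.T15
import Pool.Agent.H593R2.HZ.U1
import Pool.Agent.H593R2.HZ.U7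
import Pool.Agent.H593R2.HZ.W1
import Pool.Agent.H593R2.HZ.W2
import Pool.Agent.H593R2.HZ.W2c
import Pool.Agent.H593R2.HZ.W3
import Pool.Agent.H593R2.HZ.W4a
import Pool.Agent.H593R2.HZ.W4b
import Pool.Agent.H593R2.HZ.W4c
import Pool.Agent.H593R2.HZ.W4
import Pool.Agent.H593R2.HZ.W5
import Pool.Agent.Results.MP_cd3d06_an.ChebyshevBound

open Polynomial

namespace Pool.Agent.Results.MP_cd3d06_an.HalfGap

open Pool.Agent.H593R2.HZ

/-- The number of zeros of `p + conj q` in the plane. -/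
noncomputable def zeroCount (p q : ℂ[X]) : ℕ∞ :=
  {z : ℂ | p.eval z + (starRingEnd ℂ) (q.eval z) = 0}.encard

/-- The number `N(n, m)`: the supremum of the number of zeros of `p + conj q`, over all
polynomials `p` of degree `n` and `q` of degree `m`. -/
noncomputable def N (n m : ℕ) : ℕ∞ :=
  ⨆ (p : ℂ[X]) (q : ℂ[X]) (_ : p.natDegree = n) (_ : q.natDegree = m), zeroCount p q

/-- `κ(s) = ⌊s / (n - m)⌋ + 1 + ∑_{1 ≤ r ≤ s / n} (2 ⌊(s - r n) / (n - m)⌋ + 1)`. -/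
def kappa (n m s : ℕ) : ℕ :=
  s / (n - m) + 1 + ∑ r ∈ Finset.Icc 1 (s / n), (2 * ((s - r * n) / (n - m)) + 1)

/-- from monic `p` to all `p`. -/
lemma bound (n m β : ℕ) (hmn : m < n)
    (H : ∀ p q : ℂ[X], p.Monic → p.natDegree = n → q.natDegree ≤ m →
      {z : ℂ | p.eval z + (starRingEnd ℂ) (q.eval z) = 0}.Finite ∧
      {z : ℂ | p.eval z + (starRingEnd ℂ) (q.eval z) = 0}.ncard ≤ n ^ 2 - 2 * β)
    (p q : ℂ[X]) (hpn : p.natDegree = n) (hqm : q.natDegree = m) :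
    zeroCount p q ≤ ((n ^ 2 - 2 * β : ℕ) : ℕ∞) := by
  have hp0 : p ≠ 0 := by rintro rfl; simp at hpn; omega
  set a := p.leadingCoeff with ha
  have ha0 : a ≠ 0 := Polynomial.leadingCoeff_ne_zero.2 hp0
  have hset : {z : ℂ | p.eval z + (starRingEnd ℂ) (q.eval z) = 0} =
      {z : ℂ | (C a⁻¹ * p).eval z + (starRingEnd ℂ) ((C ((starRingEnd ℂ) a⁻¹) * q).eval z) = 0} := by
    ext z
    simp only [Set.mem_ofPred_eq, Polynomial.eval_mul, Polynomial.eval_C, map_mul,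
      starRingEnd_self_apply]
    rw [← mul_add]
    constructor
    · intro h; rw [h, mul_zero]
    · intro h
      rcases mul_eq_zero.1 h with h | h
      · exact absurd h (inv_ne_zero ha0)
      · exact h
  have hmon : (C a⁻¹ * p).Monic := by
    unfold Polynomial.Monic
    rw [Polynomial.leadingCoeff_mul, Polynomial.leadingCoeff_C, ← ha, inv_mul_cancel₀ ha0]
  have hdeg : (C a⁻¹ * p).natDegree = n := by
    rw [Polynomial.natDegree_C_mul (inv_ne_zero ha0), hpn]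
  have hq : (C ((starRingEnd ℂ) a⁻¹) * q).natDegree ≤ m :=
    (Polynomial.natDegree_C_mul_le _ _).trans hqm.le
  obtain ⟨hf, hc⟩ := H (C a⁻¹ * p) (C ((starRingEnd ℂ) a⁻¹) * q) hmon hdeg hq
  unfold zeroCount
  rw [hset, ← hf.cast_ncard_eq]
  exact_mod_cast hc

/-- the upper bound. -/
theorem upper (n m s : ℕ) (hm : 1 ≤ m) (hmn : m < n) (hs : s < n ^ 2) :
    N n m ≤ ((n ^ 2 - 2 * (s + 1 - kappa n m s) : ℕ) : ℕ∞) := by
  have h1 : T1 := t1 t1a t1b
  have h2' : T2 := t2 h1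
  have h3a : T3a := t3a h1
  have h3b : T3b := t3b h1
  have h3c : T3c := t3c h1
  have h3d : T3d := t3d h3b h3c
  have h4' : T4 := t4 h1 h3a
  have h6' : T6 := t6 h2' h3d h4'
  have h7 : T7 := t7 h6'
  have k1 : U1 := u1 h3c
  have k7 : U7 := u7 h3a h7 (t15 t14)
  have g1 : W1 := w1 k1
  have g2 : W2 := w2 k1 g1 w2c
  have g4 : W4 := w4 k1 (w4a h7) (w4b h1 h2' h3b h6') w4c
  have key := k7 n m (s + 1 - kappa n m s) hmn (by
    intro p q hp hpn hq hcard
    have hfin : (Sol p (cj q) (cj p) q).Finite :=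
      Set.finite_of_ncard_pos (by rw [hcard]; have : 0 < n := by omega
                                  positivity)
    have hA : (hfin.toFinset : Set (ℂ × ℂ)) = Sol p (cj q) (cj p) q := hfin.coe_toFinset
    have hAc : hfin.toFinset.card = n ^ 2 := by
      rw [← Set.ncard_coe_finset, hA, hcard]
    obtain ⟨p', q', A', hg, hinj, hle⟩ := g4 n m p q hfin.toFinset hm ⟨hmn, hp, hpn, hq, hA, hAc⟩
    obtain ⟨V, hV1, hV2⟩ := g2 n m p' q' A' hg s
    have h := w3 n m p' q' A' hg hinj s hs V hV2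
    have hk : kap n m s = kappa n m s := rfl
    rw [hk] at hV1
    omega)
  unfold N
  refine iSup_le fun p => iSup_le fun q => iSup_le fun hp => iSup_le fun hq => ?_
  exact bound n m _ hmn key p q hp hq

/-- **Upper bounds for the number of zeros of harmonic polynomials.**
(1) For `1 ≤ m < n` and every `s < n ^ 2`: `N(n, m) ≤ n ^ 2 - 2 (s + 1 - κ(s))`.
(2) For `1 ≤ m < n`: `2 (n - m) N(n, m) ≤ (n - m) (n ^ 2 + m n) + 2 (n - m) ^ 2 + n`, i.e.
`N(n, m) ≤ (n ^ 2 + m n) / 2 + (n - m) + n / (2 (n - m))`.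
(3) `N(5, 2) = 17`, and the value is attained. -/
theorem result :
    (∀ n m s : ℕ, 1 ≤ m → m < n → s < n ^ 2 →
      N n m ≤ ((n ^ 2 - 2 * (s + 1 - kappa n m s) : ℕ) : ℕ∞)) ∧
    (∀ n m : ℕ, 1 ≤ m → m < n →
      ((2 * (n - m) : ℕ) : ℕ∞) * N n m ≤
        (((n - m) * (n ^ 2 + m * n) + 2 * (n - m) ^ 2 + n : ℕ) : ℕ∞)) ∧
    N 5 2 = 17 ∧
    (∃ p q : ℂ[X], p.natDegree = 5 ∧ q.natDegree = 2 ∧ zeroCount p q = 17) := by
  have h52 : N 5 2 ≤ 17 := by
    have h := upper 5 2 7 (by norm_num) (by norm_num) (by norm_num)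
    have hk : 5 ^ 2 - 2 * (7 + 1 - kappa 5 2 7) = 17 := by decide
    rw [hk] at h
    exact_mod_cast h
  have hatt : ∃ p q : ℂ[X], p.natDegree = 5 ∧ q.natDegree = 2 ∧ zeroCount p q = 17 := by
    obtain ⟨p, q, hp, hq, h⟩ := ChebyshevBound.lower_bound 5 2 (by norm_num) (by norm_num)
    have he : 2 * 5 + 2 * 5 - 2 - Nat.gcd 2 5 = 17 := by decide
    rw [he] at h
    refine ⟨p, q, hp, hq, le_antisymm ?_ (by exact_mod_cast h)⟩
    refine le_trans ?_ h52
    unfold N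
    exact le_iSup_of_le p (le_iSup_of_le q (le_iSup_of_le hp (le_iSup_of_le hq le_rfl)))
  refine ⟨upper, ?_, ?_, hatt⟩
  · intro n m hm hmn
    obtain ⟨s, hs, hk⟩ := w5 n m hm hmn
    have h := upper n m s hm hmn hs
    refine (mul_le_mul_right h _).trans ?_
    rw [← Nat.cast_mul]
    have hkk : kap n m s = kappa n m s := rfl
    rw [hkk] at hk
    have key : 2 * (n - m) * (n ^ 2 - 2 * (s + 1 - kappa n m s)) ≤
        (n - m) * (n ^ 2 + m * n) + 2 * (n - m) ^ 2 + n := by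
      obtain ⟨L, rfl⟩ : ∃ L, n = m + L := ⟨n - m, by omega⟩
      have e : m + L - m = L := by omega
      rw [e] at hk ⊢
      generalize s + 1 - kappa (m + L) m s = c at hk ⊢
      rcases le_or_gt (2 * c) ((m + L) ^ 2) with h1 | h1
      · obtain ⟨d, hd⟩ : ∃ d, (m + L) ^ 2 = 2 * c + d := ⟨(m + L) ^ 2 - 2 * c, by omega⟩
        have e2 : (m + L) ^ 2 - 2 * c = d := by omega
        rw [e2]
        nlinarith [hk, hd]
      · have e2 : (m + L) ^ 2 - 2 * c = 0 := by omega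
        rw [e2]
        simp
    exact_mod_cast key
  · apply le_antisymm h52
    obtain ⟨p, q, hp, hq, h⟩ := hatt
    rw [← h]
    unfold N
    exact le_iSup_of_le p (le_iSup_of_le q (le_iSup_of_le hp (le_iSup_of_le hq le_rfl)))

end Pool.Agent.Results.MP_cd3d06_an.HalfGap
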